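import Pool.Agent.Helper61.PV.St

/-!
# Project PV, module Dig: digits in base `m` as a polynomial value
-/

set_option autoImplicit false

namespace Pool.Agent.Helper39.PV

open Pool.Agent.Helper61.PV Finset

theorem ev_cons {d : ℕ} (a : ℤ) (b : Fin (d + 1) → ℤ) (m : ℤ) :
    ev (Fin.cons a b : Fin (d + 1 + 1) → ℤ) m = a + m * ev b m := by
  unfold ev
  rw [Fin.sum_univ_succ, Fin.cons_zero, Finset.mul_sum]
  congr 1
  · simp
  · apply Finset.sum_congr rfl
    intro i _
    rw [Fin.cons_succ, Fin.val_succ, pow_succ]
    ring

theorem hDig : StDig := by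
  intro d m B u hm hu
  induction d generalizing u with
  | zero =>
    refine ⟨fun _ => u, fun _ => Int.natCast_nonneg u, ?_, ?_, ?_⟩
    · intro i hi
      omega
    · have : u < B := by simpa using hu
      show (u : ℤ) < (B : ℤ)
      exact_mod_cast this
    · unfold ev
      simp
  | succ d ih =>
    have h1 : u / m < m ^ d * B := by
      rw [Nat.div_lt_iff_lt_mul (by omega)]
      calc u < m ^ (d + 1) * B := hu
        _ = m ^ d * B * m := by ring
    obtain ⟨b, b0, b1, b2, b3⟩ := ih (u / m) h1
    refine ⟨(Fin.cons ((u % m : ℕ) : ℤ) b : Fin (d + 1 + 1) → ℤ), ?_, ?_, ?_, ?_⟩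
    · intro i
      refine Fin.cases ?_ (fun j => ?_) i
      · rw [Fin.cons_zero]
        exact Int.natCast_nonneg _
      · rw [Fin.cons_succ]
        exact b0 j
    · intro i
      refine Fin.cases ?_ (fun j => ?_) i
      · intro _
        rw [Fin.cons_zero]
        have : u % m < m := Nat.mod_lt u (by omega)
        exact_mod_cast this
      · intro hj
        rw [Fin.cons_succ]
        apply b1
        rw [Fin.val_succ] at hj
        omega
    · rw [← Fin.succ_last, Fin.cons_succ]
      exact b2
    · rw [ev_cons, b3]
      have := Nat.mod_add_div u m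
      exact_mod_cast this

end Pool.Agent.Helper39.PV
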